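import Pool.Agent.W581.HQ.Stm

set_option autoImplicit false

namespace Pool.Agent.W230.HQ

open MeasureTheory Set Filter Topology Pool.Agent.W581.HQ

section

variable {p : ℝ} {φ : ℝ → ℝ} {tc : ℝ} {τ : ℝ → ℝ}

/-- the function `k` -/
noncomputable def kk (p : ℝ) (φ : ℝ → ℝ) (t : ℝ) : ℝ :=
  ((1 - t) * deriv φ t + p * φ t) / (1 + t)

lemma d1 (h : DH p φ) (t : ℝ) : HasDerivAt φ (deriv φ t) t :=
  (h.sm.differentiable (by norm_num)).differentiableAt.hasDerivAt

lemma cd1 (h : DH p φ) : ContDiff ℝ 1 (deriv φ) := by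
  have h2 : ContDiff ℝ (1 + 1) φ := by
    have := h.sm
    norm_num
    exact this
  exact (contDiff_succ_iff_deriv.1 h2).2.2

lemma d2 (h : DH p φ) (t : ℝ) : HasDerivAt (deriv φ) (deriv (deriv φ) t) t :=
  ((cd1 h).differentiable (by norm_num)).differentiableAt.hasDerivAt

lemma dk (h : DH p φ) {t : ℝ} (ht : 1 + t ≠ 0) :
    HasDerivAt (kk p φ) ((KK p φ t / (1 + t) + (1 - t) * deriv (deriv φ) t) / (1 + t)) t := by
  have a1 : HasDerivAt (fun t : ℝ => 1 - t) (-1) t := by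
    simpa using (hasDerivAt_id t).const_sub 1
  have a2 : HasDerivAt (fun t : ℝ => 1 + t) 1 t := by
    simpa using (hasDerivAt_id t).const_add 1
  have a3 := ((a1.mul (d2 h t)).add ((d1 h t).const_mul p)).div a2 ht
  refine a3.congr_deriv ?_
  unfold KK
  simp only [Pi.add_apply, Pi.mul_apply]
  field_simp
  ring

lemma ck (h : DH p φ) {t : ℝ} (ht : 1 + t ≠ 0) : ContinuousAt (kk p φ) t :=
  (dk h ht).continuousAt

lemma k1 (h : DH p φ) : kk p φ 1 = deriv φ 1 := by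
  unfold kk
  have := h.e1
  norm_num
  linarith

lemma tau_gt (hT : TC p φ tc) (hτ : Cv p φ tc τ) {s : ℝ} (hs : 1 ≤ s) : tc < τ s ∧ τ s ≤ 1 := by
  rcases eq_or_lt_of_le hs with h | h
  · rw [← h, hτ.one]
    exact ⟨hT.lt, le_rfl⟩
  · exact ⟨(hτ.mem s h).1, (hτ.mem s h).2.le⟩

/-- the derivative beyond 1 -/
noncomputable def Mf (p : ℝ) (φ τ : ℝ → ℝ) (s : ℝ) : ℝ := 2 * s ^ (p - 2) * kk p φ (τ s)

lemma dG (h : DH p φ) (hT : TC p φ tc) (hτ : Cv p φ tc τ) {s : ℝ} (hs : 1 < s) :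
    HasDerivAt (fun s => 2 * s ^ (p - 1) * deriv φ (τ s)) (Mf p φ τ s) s := by
  have hs0 : 0 < s := by linarith
  have b1 := (hτ.mem s hs)
  have b2 := hT.pos (τ s) ⟨b1.1, b1.2.le⟩
  have b3 : 0 < 1 + τ s := by linarith [hT.ge]
  have a1 : HasDerivAt (fun s : ℝ => s ^ (p - 1)) ((p - 1) * s ^ (p - 1 - 1)) s :=
    Real.hasDerivAt_rpow_const (Or.inl hs0.ne')
  have a2 := (d2 h (τ s)).comp s (hτ.der s hs)
  have a3 := (a1.const_mul 2).mul a2
  have e1 : s ^ (p - 1) = s ^ (p - 2) * s := by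
    rw [← Real.rpow_add_one hs0.ne']
    congr 1
    ring
  have e2 : s ^ (p - 1 - 1) = s ^ (p - 2) := by
    congr 1
    ring
  refine a3.congr_deriv ?_
  unfold Mf kk
  simp only [Function.comp_apply]
  rw [e1, e2]
  have b4 := b2.2.2.ne'
  generalize s ^ (p - 2) = r
  generalize deriv (deriv φ) (τ s) = d at *
  unfold KK
  generalize deriv φ (τ s) = e
  generalize φ (τ s) = f
  generalize τ s = t at *
  field_simp
  ring

lemma dM (h : DH p φ) (hT : TC p φ tc) (hτ : Cv p φ tc τ) {s : ℝ} (hs : 1 < s) :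
    ∃ m : ℝ, 0 ≤ m ∧ HasDerivAt (Mf p φ τ) m s := by
  have hs0 : 0 < s := by linarith
  have b1 := (hτ.mem s hs)
  have b2 := hT.pos (τ s) ⟨b1.1, b1.2.le⟩
  have b3 : 0 < 1 + τ s := by linarith [hT.ge]
  have a1 : HasDerivAt (fun s : ℝ => s ^ (p - 2)) ((p - 2) * s ^ (p - 2 - 1)) s :=
    Real.hasDerivAt_rpow_const (Or.inl hs0.ne')
  have a2 := (dk h b3.ne').comp s (hτ.der s hs)
  have a3 := (a1.const_mul 2).mul a2
  refine ⟨_, ?_, a3⟩
  have e1 : s ^ (p - 2) = s ^ (p - 2 - 1) * s := by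
    rw [← Real.rpow_add_one hs0.ne']
    congr 1
    ring
  have hr := h.rc (τ s) ⟨by linarith [hT.ge, b1.1], b1.2⟩ b2.1
  rw [Function.comp_apply, e1]
  have hx : 0 < s ^ (p - 2 - 1) := Real.rpow_pos_of_pos hs0 _
  have b4 := b2.2.2
  generalize s ^ (p - 2 - 1) = r at *
  generalize deriv (deriv φ) (τ s) = d at *
  have hkk : kk p φ (τ s) = ((1 - τ s) * deriv φ (τ s) + p * φ (τ s)) / (1 + τ s) := rfl
  have hK : KK p φ (τ s) = (p * τ s + p - 2) * deriv φ (τ s) - p * φ (τ s) := rfl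
  rw [hkk]
  generalize KK p φ (τ s) = K at *
  generalize deriv φ (τ s) = e at *
  generalize φ (τ s) = f at *
  generalize τ s = t at *
  have key : 2 * ((p - 2) * r) * (((1 - t) * e + p * f) / (1 + t)) +
      2 * (r * s) * ((K / (1 + t) + (1 - t) * d) / (1 + t) * (-K / ((1 + t) * d * s))) =
      2 * r / ((1 + t) ^ 3 * d) *
        (((p - 1) * (1 + t) ^ 2 * (p * f - 2 * t * e) + 2 * t * (1 + t) * K) * d - K ^ 2) := by
    have hf : p * f = (p * t + p - 2) * e - K := by linarith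
    rw [hf]
    field_simp
    ring
  rw [key]
  refine mul_nonneg (by positivity) (by linarith)

lemma cM (h : DH p φ) (hT : TC p φ tc) (hτ : Cv p φ tc τ) : ContinuousOn (Mf p φ τ) (Ici 1) := by
  intro s hs
  have hs1 : (1 : ℝ) ≤ s := hs
  have hs0 : s ≠ 0 := by positivity
  have b := tau_gt hT hτ hs1
  have b3 : 1 + τ s ≠ 0 := by linarith [hT.ge, b.1]
  have c1 : ContinuousWithinAt (fun s : ℝ => s ^ (p - 2)) (Ici 1) s :=
    (Real.continuousAt_rpow_const s (p - 2) (Or.inl hs0)).continuousWithinAt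
  have c2 : ContinuousWithinAt (fun s => kk p φ (τ s)) (Ici 1) s :=
    ContinuousAt.comp_continuousWithinAt (ck h b3) (hτ.cont s hs)
  exact (c1.const_mul 2).mul c2

lemma M1 (h : DH p φ) (hτ : Cv p φ tc τ) : Mf p φ τ 1 = 2 * deriv φ 1 := by
  unfold Mf
  rw [hτ.one, k1 h, Real.one_rpow, mul_one]

lemma mM (h : DH p φ) (hT : TC p φ tc) (hτ : Cv p φ tc τ) : MonotoneOn (Mf p φ τ) (Ici 1) := by
  refine monotoneOn_of_deriv_nonneg (convex_Ici 1) (cM h hT hτ) ?_ ?_
  · rw [interior_Ici]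
    intro s hs
    obtain ⟨m, -, hm⟩ := dM h hT hτ hs
    exact hm.differentiableAt.differentiableWithinAt
  · rw [interior_Ici]
    intro s hs
    obtain ⟨m, hm0, hm⟩ := dM h hT hτ hs
    rw [hm.deriv]
    exact hm0

lemma cG (h : DH p φ) (hτ : Cv p φ tc τ) :
    ContinuousOn (fun s => 2 * s ^ (p - 1) * deriv φ (τ s)) (Ici 1) := by
  intro s hs
  have hs1 : (1 : ℝ) ≤ s := hs
  have hs0 : s ≠ 0 := by positivity
  have c1 : ContinuousWithinAt (fun s : ℝ => s ^ (p - 1)) (Ici 1) s :=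
    (Real.continuousAt_rpow_const s (p - 1) (Or.inl hs0)).continuousWithinAt
  have c2 : ContinuousWithinAt (fun s => deriv φ (τ s)) (Ici 1) s :=
    ContinuousAt.comp_continuousWithinAt ((cd1 h).continuous.continuousAt) (hτ.cont s hs)
  exact (c1.const_mul 2).mul c2

lemma hhG (hτ : Cv p φ tc τ) {s : ℝ} (hs : 1 ≤ s) :
    hh p φ τ s = 2 * s ^ (p - 1) * deriv φ (τ s) := by
  unfold hh
  split_ifs with h1
  · have : s = 1 := le_antisymm h1 hs
    subst this
    rw [hτ.one, Real.one_rpow]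
    ring
  · rfl

lemma hhL {s : ℝ} (hs : s ≤ 1) : hh p φ τ s = 2 * deriv φ 1 * s := by
  unfold hh
  rw [if_pos hs]

lemma dhh (h : DH p φ) (hT : TC p φ tc) (hτ : Cv p φ tc τ) (s : ℝ) :
    HasDerivAt (hh p φ τ) (if s ≤ 1 then 2 * deriv φ 1 else Mf p φ τ s) s := by
  have hlin : ∀ x : ℝ, HasDerivAt (fun s => 2 * deriv φ 1 * s) (2 * deriv φ 1) x := fun x => by
    simpa using (hasDerivAt_id x).const_mul (2 * deriv φ 1)
  rcases lt_trichotomy s 1 with hs | hs | hs
  · rw [if_pos hs.le]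
    refine (hlin s).congr_of_eventuallyEq ?_
    filter_upwards [Iio_mem_nhds hs] with x hx
    exact hhL (le_of_lt hx)
  · subst hs
    rw [if_pos le_rfl]
    have hl : HasDerivWithinAt (hh p φ τ) (2 * deriv φ 1) (Iic 1) 1 :=
      (hlin 1).hasDerivWithinAt.congr (fun x hx => hhL hx) (hhL le_rfl)
    have hG : HasDerivWithinAt (fun s => 2 * s ^ (p - 1) * deriv φ (τ s)) (2 * deriv φ 1)
        (Ici 1) 1 := by
      refine hasDerivWithinAt_Ici_of_tendsto_deriv (s := Ioi 1)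
        (fun x hx => (dG h hT hτ hx).differentiableAt.differentiableWithinAt)
        (((cG h hτ) 1 self_mem_Ici).mono Ioi_subset_Ici_self) self_mem_nhdsWithin ?_
      have h1 : Tendsto (Mf p φ τ) (𝓝[>] 1) (𝓝 (2 * deriv φ 1)) := by
        have := ((cM h hT hτ) 1 self_mem_Ici).mono Ioi_subset_Ici_self
        unfold ContinuousWithinAt at this
        rwa [M1 h hτ] at this
      refine h1.congr' ?_
      filter_upwards [self_mem_nhdsWithin] with x hx
      exact (dG h hT hτ hx).deriv.symm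
    have hr : HasDerivWithinAt (hh p φ τ) (2 * deriv φ 1) (Ici 1) 1 :=
      hG.congr (fun x hx => hhG hτ hx) (hhG hτ le_rfl)
    have := hl.union hr
    rw [Iic_union_Ici] at this
    exact this.hasDerivAt univ_mem
  · rw [if_neg (not_le.2 hs)]
    refine (dG h hT hτ hs).congr_of_eventuallyEq ?_
    filter_upwards [Ioi_mem_nhds hs] with x hx
    exact hhG hτ (le_of_lt hx)

end

theorem main : S_HC := by
  intro p φ h tc hT τ hτ
  have hD := dhh h hT hτ
  have hc : ContinuousOn (hh p φ τ) (Ici 0) := fun s _ => (hD s).continuousAt.continuousWithinAt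
  refine ⟨?_, hc⟩
  refine MonotoneOn.convexOn_of_deriv (convex_Ici 0) hc
    (fun s _ => (hD s).differentiableAt.differentiableWithinAt) ?_
  intro a _ b _ hab
  rw [(hD a).deriv, (hD b).deriv]
  have hM := mM h hT hτ
  split_ifs with h1 h2 h2
  · exact le_rfl
  · rw [← M1 h hτ]
    exact hM self_mem_Ici (mem_Ici.2 (not_le.1 h2).le) (not_le.1 h2).le
  · exact absurd (hab.trans h2) h1
  · exact hM (mem_Ici.2 (not_le.1 h1).le) (mem_Ici.2 (not_le.1 h2).le) hab

end Pool.Agent.W230.HQ
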